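import Mathlib

/-!
# Point stabilizers in a projective pile over a finitely generated group are retracts

We follow the conventions of the problem file: a pile is a profinite group acting continuously
on the right on a profinite space.
-/

universe u

namespace Pool.Agent.Results.MP_77349f_al.StabilizerRetract

/-- A pile `(G, T)`: a profinite group `G` (compact, Hausdorff, totally disconnected topological
group) with a continuous right action `act : T → G → T` on a profinite space `T`
(compact, Hausdorff, totally disconnected). -/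
structure Pile : Type (u + 1) where
  /-- the profinite group -/
  G : Type u
  /-- the profinite space -/
  T : Type u
  [group : Group G]
  [topG : TopologicalSpace G]
  [topGroup : IsTopologicalGroup G]
  [compactG : CompactSpace G]
  [t2G : T2Space G]
  [totDiscG : TotallyDisconnectedSpace G]
  [topT : TopologicalSpace T]
  [compactT : CompactSpace T]
  [t2T : T2Space T]
  [totDiscT : TotallyDisconnectedSpace T]
  /-- the right action `t ^ g` -/
  act : T → G → T
  act_one : ∀ t, act t 1 = t
  act_mul : ∀ t g h, act t (g * h) = act (act t g) h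
  continuous_act : Continuous fun p : T × G => act p.1 p.2

attribute [instance] Pile.group Pile.topG Pile.topGroup Pile.compactG Pile.t2G Pile.totDiscG
  Pile.topT Pile.compactT Pile.t2T Pile.totDiscT

namespace Pile

/-- The stabilizer `G_t` of a point `t`. -/
def stab (P : Pile.{u}) (t : P.T) : Subgroup P.G where
  carrier := {g | P.act t g = t}
  mul_mem' := by
    intro a b ha hb
    simp only [Set.mem_ofPred_eq] at *
    rw [P.act_mul, ha, hb]
  one_mem' := P.act_one t
  inv_mem' := by
    intro a ha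
    simp only [Set.mem_ofPred_eq] at *
    have h := P.act_mul t a a⁻¹
    rw [mul_inv_cancel, P.act_one, ha] at h
    exact h.symm

theorem mem_stab {P : Pile.{u}} {t : P.T} {g : P.G} : g ∈ P.stab t ↔ P.act t g = t := Iff.rfl

/-- The orbit equivalence relation on `T`; its quotient is the orbit space `T / G`. -/
def orbitRel (P : Pile.{u}) : Setoid P.T where
  r s t := ∃ g, P.act s g = t
  iseqv :=
    { refl := fun t => ⟨1, P.act_one t⟩
      symm := by
        rintro s t ⟨g, rfl⟩
        exact ⟨g⁻¹, by rw [← P.act_mul, mul_inv_cancel, P.act_one]⟩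
      trans := by
        rintro s t r ⟨g, rfl⟩ ⟨h, rfl⟩
        exact ⟨g * h, P.act_mul _ _ _⟩ }

/-- A morphism of piles: a continuous homomorphism together with a compatible continuous map. -/
structure Hom (P Q : Pile.{u}) where
  /-- the homomorphism of groups -/
  onG : P.G →* Q.G
  /-- the map of spaces -/
  onT : P.T → Q.T
  continuous_onG : Continuous onG
  continuous_onT : Continuous onT
  map_act : ∀ t g, onT (P.act t g) = Q.act (onT t) (onG g)

/-- The map of orbit spaces induced by a morphism of piles. -/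
def Hom.orbitMap {P Q : Pile.{u}} (α : Hom P Q) : Quotient P.orbitRel → Quotient Q.orbitRel :=
  Quotient.map α.onT (by
    rintro s t ⟨g, rfl⟩
    exact ⟨α.onG g, (α.map_act s g).symm⟩)

/-- `α : (B, Y) → (A, X)` is an epimorphism: it is onto on groups and on spaces, and every `x`
is the image of some `y` with `α (B_y) = A_x`. -/
def Hom.IsEpi {B A : Pile.{u}} (α : Hom B A) : Prop :=
  Function.Surjective α.onG ∧ Function.Surjective α.onT ∧
    ∀ x : A.T, ∃ y : B.T, α.onT y = x ∧ (B.stab y).map α.onG = A.stab x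

/-- `α : (B, Y) → (A, X)` is rigid: it maps each `B_y` isomorphically onto `A_{α(y)}` and the
induced map of orbit spaces is a homeomorphism.  (A continuous bijective homomorphism between
compact Hausdorff groups is an isomorphism of topological groups.) -/
def Hom.IsRigid {B A : Pile.{u}} (α : Hom B A) : Prop :=
  (∀ y : B.T, Set.BijOn α.onG (B.stab y) (A.stab (α.onT y))) ∧ IsHomeomorph α.orbitMap

/-- A pile `(G, T)` is projective if every finite rigid embedding problem for it has a solution:
for every morphism `φ : (G, T) → (A, X)` and every rigid epimorphism `α : (B, Y) → (A, X)` with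
`(B, Y)` finite there is a morphism `γ : (G, T) → (B, Y)` with `α ∘ γ = φ`. -/
def IsProjective (P : Pile.{u}) : Prop :=
  ∀ (A B : Pile.{u}) (φ : Hom P A) (α : Hom B A), Finite B.G → Finite B.T →
    α.IsEpi → α.IsRigid →
      ∃ γ : Hom P B, (∀ g, α.onG (γ.onG g) = φ.onG g) ∧ (∀ t, α.onT (γ.onT t) = φ.onT t)

/-! ### Finite piles -/

/-- A finite group acting on a finite set, with discrete topologies. -/
def ofFinite (A X : Type u) [Group A] [Finite A] [Finite X] (act : X → A → X)
    (h1 : ∀ x, act x 1 = x) (h2 : ∀ x a b, act x (a * b) = act (act x a) b) : Pile.{u} :=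
  letI : TopologicalSpace A := ⊥
  letI : TopologicalSpace X := ⊥
  haveI : DiscreteTopology A := ⟨rfl⟩
  haveI : DiscreteTopology X := ⟨rfl⟩
  { G := A
    T := X
    act := act
    act_one := h1
    act_mul := h2
    continuous_act := continuous_of_discreteTopology }

section cover

variable (A X : Type u) [Group A] [Finite A] [Finite X] (act : X → A → X)
    (h1 : ∀ x, act x 1 = x) (h2 : ∀ x a b, act x (a * b) = act (act x a) b) (x0 : X)

/-- The points outside the orbit of `x0`. -/
abbrev Off : Type u := {x : X // ¬ ∃ a, act x0 a = x}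

/-- The stabilizer of `x0`. -/
abbrev K : Subgroup A := (ofFinite A X act h1 h2).stab x0

/-- The action of `A × K` on `A ⊕ (Off × K)`. -/
def coverAct : (A ⊕ (Off A X act x0 × K A X act h1 h2 x0)) → (A × K A X act h1 h2 x0) →
    (A ⊕ (Off A X act x0 × K A X act h1 h2 x0))
  | Sum.inl z, g => Sum.inl ((g.2 : A)⁻¹ * z * g.1)
  | Sum.inr p, g => Sum.inr (⟨act p.1.1 g.1, by
      rintro ⟨a, ha⟩
      apply p.1.2
      refine ⟨a * g.1⁻¹, ?_⟩
      rw [h2, ha, ← h2, mul_inv_cancel, h1]⟩, g.2⁻¹ * p.2)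

/-- The finite pile `(A × A_{x0}, A ⊕ (Off × A_{x0}))`. -/
def cover : Pile.{u} :=
  ofFinite (A × K A X act h1 h2 x0) (A ⊕ (Off A X act x0 × K A X act h1 h2 x0))
    (coverAct A X act h1 h2 x0)
    (by
      rintro (z | ⟨⟨x, hx⟩, c⟩)
      · simp [coverAct]
      · simp [coverAct, h1])
    (by
      rintro (z | ⟨⟨x, hx⟩, c⟩) ⟨a, d⟩ ⟨a', d'⟩
      · simp [coverAct, mul_assoc]
      · simp [coverAct, h2, mul_assoc])

/-- The projection of the cover onto `(A, X)`. -/
def coverHom : Hom (cover A X act h1 h2 x0) (ofFinite A X act h1 h2) where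
  onG := MonoidHom.fst A (K A X act h1 h2 x0)
  onT := fun y => match y with
    | Sum.inl z => act x0 z
    | Sum.inr p => p.1.1
  continuous_onG := continuous_bot
  continuous_onT := continuous_bot
  map_act := by
    rintro (z | ⟨⟨x, hx⟩, c⟩) ⟨a, d⟩
    · have hd : act x0 ((d : A)⁻¹) = x0 := (K A X act h1 h2 x0).inv_mem d.2
      change act x0 ((d : A)⁻¹ * z * a) = act (act x0 z) a
      rw [h2, h2, hd]
    · rfl

theorem coverHom_bijOn (y : (cover A X act h1 h2 x0).T) :
    Set.BijOn (coverHom A X act h1 h2 x0).onG ((cover A X act h1 h2 x0).stab y)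
      ((ofFinite A X act h1 h2).stab ((coverHom A X act h1 h2 x0).onT y)) := by
  refine ⟨?_, ?_, ?_⟩
  · intro g hg
    have hg' : (cover A X act h1 h2 x0).act y g = y := hg
    change (ofFinite A X act h1 h2).act _ _ = _
    rw [← (coverHom A X act h1 h2 x0).map_act, hg']
  · rintro ⟨a, d⟩ hg ⟨a', d'⟩ hg' haa
    have haa' : a = a' := haa
    subst haa'
    rcases y with (z | ⟨⟨x, hx⟩, c⟩)
    · have e1 : (Sum.inl ((d : A)⁻¹ * z * a) : (A ⊕ (Off A X act x0 × K A X act h1 h2 x0))) =
        Sum.inl z := hg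
      have e2 : (Sum.inl ((d' : A)⁻¹ * z * a) : (A ⊕ (Off A X act x0 × K A X act h1 h2 x0))) =
        Sum.inl z := hg'
      have e3 := Sum.inl.inj (e1.trans e2.symm)
      have e4 : (d : A)⁻¹ = (d' : A)⁻¹ := by
        rwa [mul_left_inj, mul_left_inj] at e3
      have e5 : d = d' := Subtype.ext (inv_injective e4)
      rw [e5]
    · have e1 : (Sum.inr (_, d⁻¹ * c) : (A ⊕ (Off A X act x0 × K A X act h1 h2 x0))) =
        Sum.inr (_, c) := hg
      have e2 : (Sum.inr (_, d'⁻¹ * c) : (A ⊕ (Off A X act x0 × K A X act h1 h2 x0))) =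
        Sum.inr (_, c) := hg'
      have e3 := (Prod.mk.inj (Sum.inr.inj e1)).2
      have e4 := (Prod.mk.inj (Sum.inr.inj e2)).2
      have e5 : d = d' := by
        rw [mul_eq_right, inv_eq_one] at e3 e4
        rw [e3, e4]
      rw [e5]
  · intro a' ha
    obtain ⟨a, rfl⟩ : ∃ a : A, a = a' := ⟨a', rfl⟩
    rcases y with (z | ⟨⟨x, hx⟩, c⟩)
    · have ha' : act (act x0 z) a = act x0 z := ha
      have hd : z * a * z⁻¹ ∈ K A X act h1 h2 x0 := by
        change act x0 (z * a * z⁻¹) = x0
        rw [h2, h2, ha', ← h2, mul_inv_cancel, h1]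
      refine ⟨(a, ⟨z * a * z⁻¹, hd⟩), ?_, rfl⟩
      change Sum.inl ((z * a * z⁻¹)⁻¹ * z * a) = Sum.inl z
      congr 1
      group
    · have ha' : act x a = x := ha
      refine ⟨(a, 1), ?_, rfl⟩
      change (Sum.inr (_, 1⁻¹ * c) : (A ⊕ (Off A X act x0 × K A X act h1 h2 x0))) = Sum.inr (_, c)
      congr 1
      refine Prod.ext (Subtype.ext ha') ?_
      simp

theorem coverHom_surj : Function.Surjective (coverHom A X act h1 h2 x0).onT := by
  intro x
  by_cases hx : ∃ a, act x0 a = x
  · obtain ⟨a, ha⟩ := hx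
    exact ⟨Sum.inl a, ha⟩
  · exact ⟨Sum.inr (⟨x, hx⟩, 1), rfl⟩

theorem coverHom_isEpi : (coverHom A X act h1 h2 x0).IsEpi := by
  refine ⟨fun a => ⟨(a, 1), rfl⟩, coverHom_surj A X act h1 h2 x0, ?_⟩
  intro x
  obtain ⟨y, rfl⟩ := coverHom_surj A X act h1 h2 x0 x
  refine ⟨y, rfl, ?_⟩
  have h := (coverHom_bijOn A X act h1 h2 x0 y).image_eq
  exact SetLike.coe_injective (by rw [Subgroup.coe_map]; exact h)

theorem coverHom_orbitMap_injective :
    Function.Injective (coverHom A X act h1 h2 x0).orbitMap := by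
  intro p q
  induction p using Quotient.inductionOn with | _ p => ?_
  induction q using Quotient.inductionOn with | _ q => ?_
  intro hpq
  have hpq' : ∃ a : A, act ((coverHom A X act h1 h2 x0).onT p) a =
      (coverHom A X act h1 h2 x0).onT q := Quotient.exact hpq
  obtain ⟨a, ha⟩ := hpq'
  apply Quotient.sound
  rcases p with (z | ⟨⟨x, hx⟩, c⟩) <;> rcases q with (w | ⟨⟨y, hy⟩, e⟩)
  · have ha' : act (act x0 z) a = act x0 w := ha
    exact ⟨(z⁻¹ * w, 1), by
      change Sum.inl (((1 : K A X act h1 h2 x0) : A)⁻¹ * z * (z⁻¹ * w)) = Sum.inl w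
      simp⟩
  · exfalso
    have ha' : act (act x0 z) a = y := ha
    exact hy ⟨z * a, by rw [h2, ha']⟩
  · exfalso
    have ha' : act x a = act x0 w := ha
    exact hx ⟨w * a⁻¹, by rw [h2, ← ha', ← h2, mul_inv_cancel, h1]⟩
  · have ha' : act x a = y := ha
    refine ⟨(a, c * e⁻¹), ?_⟩
    change (Sum.inr (_, (c * e⁻¹)⁻¹ * c) : (A ⊕ (Off A X act x0 × K A X act h1 h2 x0))) =
      Sum.inr (_, e)
    congr 1
    refine Prod.ext (Subtype.ext ha') ?_
    simp

theorem coverHom_isRigid : (coverHom A X act h1 h2 x0).IsRigid := by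
  refine ⟨coverHom_bijOn A X act h1 h2 x0, ?_⟩
  have hcont : Continuous (coverHom A X act h1 h2 x0).orbitMap := by
    apply Continuous.quotient_map'
    exact continuous_bot
  refine ⟨hcont, ?_, coverHom_orbitMap_injective A X act h1 h2 x0, ?_⟩
  · intro U _
    have hq := isQuotientMap_quotient_mk' (s := (ofFinite A X act h1 h2).orbitRel)
    rw [← hq.isOpen_preimage]
    have : DiscreteTopology (ofFinite A X act h1 h2).T := ⟨rfl⟩
    exact isOpen_discrete _
  · intro q
    induction q using Quotient.inductionOn with | _ q => ?_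
    obtain ⟨y, rfl⟩ := coverHom_surj A X act h1 h2 x0 q
    exact ⟨Quotient.mk _ y, rfl⟩

/-- The key step: for a projective pile, the restriction of a morphism `φ` into a finite pile to
the stabilizer of `t0` extends to a homomorphism of the whole group into the stabilizer of
`φ t0`. -/
theorem exists_hom_to_stab {P : Pile.{u}} (hP : P.IsProjective)
    (φ : Hom P (ofFinite A X act h1 h2)) (t0 : P.T) :
    ∃ r : P.G →* K A X act h1 h2 (φ.onT t0), IsOpen (r.ker : Set P.G) ∧
      ∀ h ∈ P.stab t0, ((r h : K A X act h1 h2 (φ.onT t0)) : A) = φ.onG h := by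
  obtain ⟨γ, hγ1, hγ2⟩ := hP _ _ φ (coverHom A X act h1 h2 (φ.onT t0))
    (inferInstanceAs (Finite (A × K A X act h1 h2 (φ.onT t0))))
    (inferInstanceAs (Finite (A ⊕ (Off A X act (φ.onT t0) × K A X act h1 h2 (φ.onT t0)))))
    (coverHom_isEpi A X act h1 h2 _) (coverHom_isRigid A X act h1 h2 _)
  -- the underlying homomorphism with its type unfolded
  let γG : P.G →* A × K A X act h1 h2 (φ.onT t0) := γ.onG
  have hγker : IsOpen (γG.ker : Set P.G) := by
    have h : IsOpen ((γ.onG : P.G → (cover A X act h1 h2 (φ.onT t0)).G) ⁻¹' {1}) := by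
      have : DiscreteTopology (cover A X act h1 h2 (φ.onT t0)).G := ⟨rfl⟩
      exact γ.continuous_onG.isOpen_preimage _ (isOpen_discrete _)
    exact h
  obtain ⟨z, hz⟩ : ∃ z : A, (Sum.inl z :
      (A ⊕ (Off A X act (φ.onT t0) × K A X act h1 h2 (φ.onT t0)))) = γ.onT t0 := by
    have h := hγ2 t0
    rcases hy : γ.onT t0 with (z | ⟨⟨x, hx⟩, c⟩)
    · exact ⟨z, rfl⟩
    · exfalso
      rw [hy] at h
      have h' : x = φ.onT t0 := h
      exact hx ⟨1, (h1 _).trans h'.symm⟩
  have hzK : z ∈ K A X act h1 h2 (φ.onT t0) := by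
    have h := hγ2 t0
    rw [← hz] at h
    exact h
  refine ⟨(MulAut.conj (⟨z, hzK⟩ : K A X act h1 h2 (φ.onT t0))⁻¹).toMonoidHom.comp
    ((MonoidHom.snd A (K A X act h1 h2 (φ.onT t0))).comp γG), ?_, ?_⟩
  · refine Subgroup.isOpen_mono (H₁ := γG.ker) ?_ hγker
    intro g hg
    rw [MonoidHom.mem_ker] at hg ⊢
    simp [hg]
  · intro h hh
    have e1 : (cover A X act h1 h2 (φ.onT t0)).act (γ.onT t0) (γ.onG h) = γ.onT t0 := by
      rw [← γ.map_act, show P.act t0 h = t0 from hh]
    rw [← hz] at e1
    have e2 : (Sum.inl ((((γG h).2 : K A X act h1 h2 (φ.onT t0)) : A)⁻¹ * z * (γG h).1) :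
        (A ⊕ (Off A X act (φ.onT t0) × K A X act h1 h2 (φ.onT t0)))) = Sum.inl z := e1
    have e3 := Sum.inl.inj e2
    have e4 : (γG h).1 = φ.onG h := hγ1 h
    change z⁻¹ * (((γG h).2 : K A X act h1 h2 (φ.onT t0)) : A) * (z⁻¹)⁻¹ = φ.onG h
    rw [← e4]
    have e5 : (((γG h).2 : K A X act h1 h2 (φ.onT t0)) : A) = z * (γG h).1 * z⁻¹ := by
      rw [mul_assoc, inv_mul_eq_iff_eq_mul] at e3
      rw [e3]
      group
    rw [e5]
    group

end cover

/-! ### Extending the canonical map to finite quotients -/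

section quotient

variable (P : Pile.{u})

open Classical in
/-- The morphism `(G, T) → (G / N, {functions G / N → Bool})` attached to an `N`-invariant clopen
set `V`: it sends `t` to the indicator function of `{g | t ^ g ∈ V}`. -/
noncomputable def indHom (N : Subgroup P.G) [N.Normal] [Finite (P.G ⧸ N)]
    (hNo : IsOpen (N : Set P.G)) (V : Set P.T) (hVc : IsClopen V)
    (hV : ∀ t, ∀ n ∈ N, t ∈ V → P.act t n ∈ V) :
    Hom P (ofFinite (P.G ⧸ N) ((P.G ⧸ N) → Bool) (fun f a => fun b => f (a * b))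
      (fun f => by funext b; simp) (fun f a b => by funext c; simp [mul_assoc])) where
  onG := QuotientGroup.mk' N
  onT := fun t b => decide (P.act t b.out ∈ V)
  continuous_onG := by
    have h1 : DiscreteTopology (P.G ⧸ N) := QuotientGroup.discreteTopology hNo
    have h2 : Continuous (QuotientGroup.mk' N : P.G → P.G ⧸ N) := continuous_quot_mk
    rw [h1.eq_bot] at h2
    exact h2
  continuous_onT := by
    have key : @Continuous P.T ((P.G ⧸ N) → Bool) _ ⊥
        (fun (t : P.T) (b : P.G ⧸ N) => decide (P.act t b.out ∈ V)) := by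
      have h1 : Continuous (fun (t : P.T) (b : P.G ⧸ N) => decide (P.act t b.out ∈ V)) := by
        refine continuous_pi fun b => ?_
        have hc : IsClopen {t : P.T | P.act t b.out ∈ V} :=
          hVc.preimage (P.continuous_act.comp (Continuous.prodMk_left b.out))
        have h3 := (IsLocallyConstant.iff_continuous
          (fun t : P.T => decide (P.act t b.out ∈ V))).1
        refine h3 ?_
        refine (IsLocallyConstant.iff_isOpen_fiber).2 ?_
        intro c
        cases c
        · have : (fun t : P.T => decide (P.act t b.out ∈ V)) ⁻¹' {false} =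
              {t : P.T | P.act t b.out ∈ V}ᶜ := by
            ext t; simp
          rw [this]
          exact hc.compl.isOpen
        · have : (fun t : P.T => decide (P.act t b.out ∈ V)) ⁻¹' {true} =
              {t : P.T | P.act t b.out ∈ V} := by
            ext t; simp
          rw [this]
          exact hc.isOpen
      have h2 : DiscreteTopology ((P.G ⧸ N) → Bool) := inferInstance
      rw [h2.eq_bot] at h1
      exact h1
    exact key
  map_act := by
    intro t g
    funext b
    have hout : ∀ (t : P.T) (a : P.G) , P.act t a ∈ V ↔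
        P.act t (QuotientGroup.mk (s := N) a).out ∈ V := by
      intro t a
      obtain ⟨n, hn⟩ := QuotientGroup.mk_out_eq_mul N a
      rw [hn]
      constructor
      · intro h
        rw [P.act_mul]
        exact hV _ _ n.2 h
      · intro h
        have := hV _ _ (N.inv_mem n.2) h
        rwa [← P.act_mul, mul_assoc, mul_inv_cancel, mul_one] at this
    change decide (P.act (P.act t g) b.out ∈ V) =
      decide (P.act t ((QuotientGroup.mk' N g) * b).out ∈ V)
    rw [decide_eq_decide, ← P.act_mul, hout]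
    have : (QuotientGroup.mk (s := N) (g * b.out)) = (QuotientGroup.mk' N g) * b := by
      rw [QuotientGroup.mk_mul, QuotientGroup.out_eq']
      rfl
    rw [this]

open Classical in
theorem indHom_one {N : Subgroup P.G} [N.Normal] [Finite (P.G ⧸ N)]
    {hNo : IsOpen (N : Set P.G)} {V : Set P.T} {hVc : IsClopen V}
    {hV : ∀ t, ∀ n ∈ N, t ∈ V → P.act t n ∈ V} (t : P.T) (a : P.G) :
    (((P.indHom N hNo V hVc hV).onT t : (P.G ⧸ N) → Bool) (QuotientGroup.mk a) = true) ↔
      P.act t a ∈ V := by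
  change decide (P.act t (QuotientGroup.mk (s := N) a).out ∈ V) = true ↔ _
  rw [decide_eq_true_iff]
  obtain ⟨n, hn⟩ := QuotientGroup.mk_out_eq_mul N a
  rw [hn]
  constructor
  · intro h
    have := hV _ _ (N.inv_mem n.2) h
    rwa [← P.act_mul, mul_assoc, mul_inv_cancel, mul_one] at this
  · intro h
    rw [P.act_mul]
    exact hV _ _ n.2 h

/-- For a projective pile and an open normal subgroup `N`, the canonical map
`G_t → G_t N / N` extends to a continuous homomorphism of `G`. -/
theorem exists_level {P : Pile.{u}} (hP : P.IsProjective) (t0 : P.T)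
    (N : OpenNormalSubgroup P.G) :
    ∃ ρ : P.G →* P.G ⧸ N.toSubgroup, IsOpen (ρ.ker : Set P.G) ∧
      (∀ h ∈ P.stab t0, ρ h = QuotientGroup.mk h) ∧
      ∀ g, ∃ h ∈ P.stab t0, ρ g = QuotientGroup.mk h := by
  classical
  -- the open subgroup `G_t N`
  let U : Subgroup P.G := P.stab t0 ⊔ N.toSubgroup
  have hUo : IsOpen (U : Set P.G) :=
    Subgroup.isOpen_mono (H₁ := N.toSubgroup) le_sup_right N.isOpen'
  have horb : Continuous (fun g : P.G => P.act t0 g) :=
    P.continuous_act.comp (Continuous.prodMk_right t0)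
  have hKcomp : IsCompact ((fun g : P.G => P.act t0 g) '' (U : Set P.G)ᶜ) :=
    (hUo.isClosed_compl.isCompact).image horb
  have ht0 : t0 ∈ ((fun g : P.G => P.act t0 g) '' (U : Set P.G)ᶜ)ᶜ := by
    rintro ⟨g, hg, hgt⟩
    exact hg ((le_sup_left : P.stab t0 ≤ U) hgt)
  obtain ⟨V, hVc, htV, hVK⟩ := compact_exists_isClopen_in_isOpen hKcomp.isClosed.isOpen_compl ht0
  -- an open normal subgroup leaving `V` invariant
  have hev : ∀ᶠ g in nhds (1 : P.G), ∀ t ∈ V, P.act t g ∈ V := by
    refine hVc.isClosed.isCompact.eventually_forall_of_forall_eventually ?_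
    intro t ht
    have hcont : Continuous (fun z : P.G × P.T => P.act z.2 z.1) :=
      P.continuous_act.comp continuous_swap
    have hmem : V ∈ nhds (P.act t 1) := by
      rw [P.act_one]
      exact hVc.isOpen.mem_nhds ht
    exact hcont.continuousAt.eventually_mem hmem
  obtain ⟨W, hWsub, hWo, hW1⟩ := mem_nhds_iff.1 hev
  obtain ⟨N', hN'⟩ := ProfiniteGrp.exist_openNormalSubgroup_sub_open_nhds_of_one
    (hWo.inter N.isOpen') (Set.mem_inter hW1 N.one_mem')
  have hN'N : N'.toSubgroup ≤ N.toSubgroup := fun g hg => (hN' hg).2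
  have hinv : ∀ t, ∀ n ∈ N'.toSubgroup, t ∈ V → P.act t n ∈ V :=
    fun t n hn ht => hWsub (hN' hn).1 t ht
  let φ := P.indHom N'.toSubgroup N'.isOpen' V hVc hinv
  obtain ⟨r, hrker, hr⟩ := exists_hom_to_stab _ _ _ _ _ hP φ t0
  let q : P.G ⧸ N'.toSubgroup →* P.G ⧸ N.toSubgroup :=
    QuotientGroup.map _ _ (MonoidHom.id P.G) hN'N
  refine ⟨(q.comp (Subgroup.subtype _)).comp r, ?_, ?_, ?_⟩
  · refine Subgroup.isOpen_mono (H₁ := r.ker) ?_ hrker
    intro g hg
    rw [MonoidHom.mem_ker] at hg ⊢
    simp [hg]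
  · intro h hh
    have h1 := hr h hh
    change q (r h) = _
    rw [h1]
    rfl
  · intro g
    obtain ⟨a, ha⟩ := QuotientGroup.mk_surjective (r g : P.G ⧸ N'.toSubgroup)
    have hmem : (fun b => (φ.onT t0 : (P.G ⧸ N'.toSubgroup) → Bool)
        ((r g : P.G ⧸ N'.toSubgroup) * b)) = φ.onT t0 := (r g).2
    have h1 := congrFun hmem 1
    rw [mul_one, ← ha] at h1
    have h2 : (φ.onT t0 : (P.G ⧸ N'.toSubgroup) → Bool) 1 = true := by
      refine (P.indHom_one t0 1).2 ?_
      rw [P.act_one]
      exact htV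
    rw [h2] at h1
    have h3 : P.act t0 a ∈ V := (P.indHom_one t0 a).1 h1
    have h4 : a ∈ U := by
      by_contra hcon
      exact hVK h3 ⟨a, hcon, rfl⟩
    obtain ⟨x, hx, y, hy, hxy⟩ := Subgroup.mem_sup_of_normal_right.1 h4
    refine ⟨x, hx, ?_⟩
    change q (r g) = _
    rw [← ha, ← hxy]
    change ((x * y : P.G) : P.G ⧸ N.toSubgroup) = x
    rw [QuotientGroup.mk_mul, (QuotientGroup.eq_one_iff y).2 hy, mul_one]

end quotient

/-- Continuous homomorphisms from a finitely generated group to a finite group form a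
finite set. -/
theorem finite_homs {G : Type u} [Group G] [TopologicalSpace G] [IsTopologicalGroup G]
    {S : Set G} (hS : S.Finite) (hd : Dense (Subgroup.closure S : Set G))
    (A : Type u) [Group A] [Finite A] :
    {ρ : G →* A | IsOpen (ρ.ker : Set G)}.Finite := by
  have : Finite S := hS
  refine Set.Finite.of_injOn (f := fun ρ : G →* A => fun s : S => ρ s) (t := Set.univ)
    (fun _ _ => Set.mem_univ _) ?_ Set.finite_univ
  intro ρ hρ σ hσ h
  have hρ' : IsOpen (ρ.ker : Set G) := hρ
  have hσ' : IsOpen (σ.ker : Set G) := hσ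
  have h1 : Subgroup.closure S ≤ MonoidHom.eqLocus ρ σ := by
    rw [Subgroup.closure_le]
    intro s hs
    exact congrFun h ⟨s, hs⟩
  have h2 : IsOpen (MonoidHom.eqLocus ρ σ : Set G) := by
    refine Subgroup.isOpen_mono (H₁ := ρ.ker ⊓ σ.ker) ?_ (hρ'.inter hσ')
    intro g hg
    have hg1 : ρ g = 1 := hg.1
    have hg2 : σ g = 1 := hg.2
    change ρ g = σ g
    rw [hg1, hg2]
  have h3 : IsClosed (MonoidHom.eqLocus ρ σ : Set G) :=
    Subgroup.isClosed_of_isOpen _ h2
  ext g
  have h4 : closure (Subgroup.closure S : Set G) ⊆ MonoidHom.eqLocus ρ σ :=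
    h3.closure_subset_iff.2 h1
  rw [hd.closure_eq] at h4
  exact h4 (Set.mem_univ g)

end Pile

open Pile

/-- **Theorem.** Let `(G, T)` be a projective pile with `G` topologically finitely generated.
Then for every `t : T` the stabilizer `G_t` is a retract of `G`: there is a continuous
homomorphism `r : G → G_t` restricting to the identity on `G_t`. -/
theorem result (P : Pile.{u}) (hproj : P.IsProjective)
    (hfg : ∃ S : Set P.G, S.Finite ∧ Dense (Subgroup.closure S : Set P.G)) (t : P.T) :
    ∃ r : P.G →* P.stab t, Continuous r ∧ ∀ h : P.stab t, r h = h := by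
  obtain ⟨S, hS, hd⟩ := hfg
  -- the closed sets of approximate retractions
  let Z : OpenNormalSubgroup P.G → Set (P.G → P.G) := fun N =>
    {f | ∃ ρ : P.G →* P.G ⧸ N.toSubgroup, IsOpen (ρ.ker : Set P.G) ∧
      (∀ h ∈ P.stab t, ρ h = QuotientGroup.mk h) ∧
      (∀ g, ∃ h ∈ P.stab t, ρ g = QuotientGroup.mk h) ∧ ∀ g, QuotientGroup.mk (f g) = ρ g}
  have hZne : ∀ N, (Z N).Nonempty := by
    intro N
    obtain ⟨ρ, h1, h2, h3⟩ := exists_level hproj t N
    exact ⟨fun g => (ρ g).out, ρ, h1, h2, h3, fun g => QuotientGroup.out_eq' _⟩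
  have hZcl : ∀ N, IsClosed (Z N) := by
    intro N
    have hfin := finite_homs hS hd (P.G ⧸ N.toSubgroup)
    have hZ : Z N = ⋃ ρ ∈ {ρ : P.G →* P.G ⧸ N.toSubgroup | IsOpen (ρ.ker : Set P.G) ∧
        (∀ h ∈ P.stab t, ρ h = QuotientGroup.mk h) ∧
        (∀ g, ∃ h ∈ P.stab t, ρ g = QuotientGroup.mk h)},
        {f : P.G → P.G | ∀ g, (QuotientGroup.mk (f g) : P.G ⧸ N.toSubgroup) = ρ g} := by
      ext f
      simp only [Set.mem_iUnion]
      constructor
      · rintro ⟨ρ, h1, h2, h3, h4⟩
        exact ⟨ρ, ⟨h1, h2, h3⟩, h4⟩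
      · rintro ⟨ρ, ⟨h1, h2, h3⟩, h4⟩
        exact ⟨ρ, h1, h2, h3, h4⟩
    rw [hZ]
    refine Set.Finite.isClosed_biUnion (hfin.subset fun ρ hρ => hρ.1) ?_
    intro ρ _
    rw [Set.ofPred_forall]
    refine isClosed_iInter fun g => ?_
    have hc : Continuous (fun f : P.G → P.G =>
        (QuotientGroup.mk (f g) : P.G ⧸ N.toSubgroup)) :=
      continuous_quot_mk.comp (continuous_apply g)
    have hdisc : DiscreteTopology (P.G ⧸ N.toSubgroup) := QuotientGroup.discreteTopology N.isOpen'
    exact (isClosed_discrete {ρ g}).preimage hc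
  have hZdir : Directed (· ⊇ ·) Z := by
    intro N M
    refine ⟨N ⊓ M, ?_, ?_⟩
    · rintro f ⟨ρ, h1, h2, h3, h4⟩
      have hle : (N ⊓ M).toSubgroup ≤ N.toSubgroup := fun g hg => hg.1
      let q : P.G ⧸ (N ⊓ M).toSubgroup →* P.G ⧸ N.toSubgroup :=
        QuotientGroup.map _ _ (MonoidHom.id P.G) hle
      refine ⟨q.comp ρ, ?_, ?_, ?_, ?_⟩
      · refine Subgroup.isOpen_mono (H₁ := ρ.ker) ?_ h1
        intro g hg
        rw [MonoidHom.mem_ker] at hg ⊢
        simp [hg]
      · intro h hh
        change q (ρ h) = _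
        rw [h2 h hh]
        rfl
      · intro g
        obtain ⟨h, hh, hgh⟩ := h3 g
        refine ⟨h, hh, ?_⟩
        change q (ρ g) = _
        rw [hgh]
        rfl
      · intro g
        change _ = q (ρ g)
        rw [← h4 g]
        rfl
    · rintro f ⟨ρ, h1, h2, h3, h4⟩
      have hle : (N ⊓ M).toSubgroup ≤ M.toSubgroup := fun g hg => hg.2
      let q : P.G ⧸ (N ⊓ M).toSubgroup →* P.G ⧸ M.toSubgroup :=
        QuotientGroup.map _ _ (MonoidHom.id P.G) hle
      refine ⟨q.comp ρ, ?_, ?_, ?_, ?_⟩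
      · refine Subgroup.isOpen_mono (H₁ := ρ.ker) ?_ h1
        intro g hg
        rw [MonoidHom.mem_ker] at hg ⊢
        simp [hg]
      · intro h hh
        change q (ρ h) = _
        rw [h2 h hh]
        rfl
      · intro g
        obtain ⟨h, hh, hgh⟩ := h3 g
        refine ⟨h, hh, ?_⟩
        change q (ρ g) = _
        rw [hgh]
        rfl
      · intro g
        change _ = q (ρ g)
        rw [← h4 g]
        rfl
  have hne : Nonempty (OpenNormalSubgroup P.G) := by
    obtain ⟨N, _⟩ := ProfiniteGrp.exist_openNormalSubgroup_sub_open_nhds_of_one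
      (isOpen_univ : IsOpen (Set.univ : Set P.G)) (Set.mem_univ 1)
    exact ⟨N⟩
  obtain ⟨f, hf⟩ := IsCompact.nonempty_iInter_of_directed_nonempty_isCompact_isClosed Z hZdir hZne
    (fun N => (hZcl N).isCompact) hZcl
  rw [Set.mem_iInter] at hf
  -- separation by open normal subgroups
  have hsep : ∀ x y : P.G, (∀ N : OpenNormalSubgroup P.G,
      (QuotientGroup.mk x : P.G ⧸ N.toSubgroup) = QuotientGroup.mk y) → x = y := by
    intro x y hxy
    by_contra hne
    have h1 : (1 : P.G) ∈ ({x⁻¹ * y} : Set P.G)ᶜ := by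
      intro h
      apply hne
      have h' : (1 : P.G) = x⁻¹ * y := h
      rw [eq_inv_mul_iff_mul_eq, mul_one] at h'
      exact h'
    obtain ⟨N, hN⟩ := ProfiniteGrp.exist_openNormalSubgroup_sub_open_nhds_of_one
      (isClosed_singleton (x := x⁻¹ * y)).isOpen_compl h1
    have h2 : x⁻¹ * y ∈ N.toSubgroup := QuotientGroup.eq.1 (hxy N)
    exact hN h2 rfl
  have hmul : ∀ a b, f (a * b) = f a * f b := by
    intro a b
    apply hsep
    intro N
    obtain ⟨ρ, _, _, _, h4⟩ := hf N
    rw [h4, QuotientGroup.mk_mul, h4, h4, map_mul]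
  have hid : ∀ h ∈ P.stab t, f h = h := by
    intro h hh
    apply hsep
    intro N
    obtain ⟨ρ, _, h2, _, h4⟩ := hf N
    rw [h4, h2 h hh]
  have hstabcl : IsClosed (P.stab t : Set P.G) := by
    have hc : Continuous (fun g : P.G => P.act t g) :=
      P.continuous_act.comp (Continuous.prodMk_right t)
    exact (isClosed_singleton (x := t)).preimage hc
  have hran : ∀ g, f g ∈ P.stab t := by
    intro g
    by_contra hcon
    have hop : IsOpen ((fun x : P.G => f g * x) ⁻¹' (P.stab t : Set P.G)ᶜ) :=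
      hstabcl.isOpen_compl.preimage (continuous_const_mul (f g))
    have h1 : (1 : P.G) ∈ ((fun x : P.G => f g * x) ⁻¹' (P.stab t : Set P.G)ᶜ) := by
      simpa using hcon
    obtain ⟨N, hN⟩ := ProfiniteGrp.exist_openNormalSubgroup_sub_open_nhds_of_one hop h1
    obtain ⟨ρ, _, _, h3, h4⟩ := hf N
    obtain ⟨h, hh, hgh⟩ := h3 g
    have h5 : (f g)⁻¹ * h ∈ N.toSubgroup := by
      rw [← QuotientGroup.eq, h4, hgh]
    have h6 := hN h5
    apply h6
    simpa using hh
  let r : P.G →* P.stab t :=
    { toFun := fun g => ⟨f g, hran g⟩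
      map_one' := Subtype.ext (hid 1 (P.stab t).one_mem)
      map_mul' := fun a b => Subtype.ext (hmul a b) }
  refine ⟨r, ?_, fun h => Subtype.ext (hid h h.2)⟩
  apply continuous_of_continuousAt_one
  rw [ContinuousAt, map_one, Filter.tendsto_def]
  intro s hs
  rw [nhds_induced, Filter.mem_comap] at hs
  obtain ⟨s', hs', hss⟩ := hs
  obtain ⟨W, hWs, hWo, hW1⟩ := mem_nhds_iff.1 hs'
  obtain ⟨N, hN⟩ := ProfiniteGrp.exist_openNormalSubgroup_sub_open_nhds_of_one hWo hW1
  obtain ⟨ρ, h1, _, _, h4⟩ := hf N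
  refine mem_nhds_iff.2 ⟨ρ.ker, ?_, h1, ρ.ker.one_mem⟩
  intro g hg
  apply hss
  apply hWs
  apply hN
  change f g ∈ N.toSubgroup
  rw [← QuotientGroup.eq_one_iff, h4]
  exact hg

end Pool.Agent.Results.MP_77349f_al.StabilizerRetract
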